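import Pool.Agent.Y870.SQ.Low2

/-!
SQ8, assembly.
-/

namespace Pool.Agent.Y870.SQ

open Finset Filter
open Pool.Agent.H442R2.EHI Pool.Agent.H442R2.EHI.LowerAux

lemma evt_log_pow (k : ℕ) (s : ℝ) (hs : 0 < s) : ∀ᶠ x : ℕ in atTop,
    Real.log x ^ k ≤ (x : ℝ) ^ s := by
  have h := (isLittleO_log_rpow_rpow_atTop (k : ℝ) hs).bound (show (0:ℝ) < 1 by norm_num)
  have h2 := tendsto_natCast_atTop_atTop (R := ℝ) |>.eventually h
  filter_upwards [h2, eventually_ge_atTop 1] with x hx hx1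
  have hx1' : (1:ℝ) ≤ x := by exact_mod_cast hx1
  have hl : 0 ≤ Real.log x := Real.log_nonneg hx1'
  rw [Real.norm_of_nonneg (by positivity), Real.norm_of_nonneg (by positivity), one_mul,
    Real.rpow_natCast] at hx
  exact hx

lemma evt_log_ge (M : ℝ) : ∀ᶠ x : ℕ in atTop, M ≤ Real.log x :=
  (Real.tendsto_log_atTop.comp tendsto_natCast_atTop_atTop).eventually_ge_atTop M

theorem low_core (U k B0 x1 B1 x2 m : ℕ) (C : ℝ) (hm : m = B0 + 3 + (U + 2))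
    (hA : Part2 (U + 2) B0 x1) (hB : Part2 (U + m + 2) B1 x2)
    (hk : ∀ Q : ℕ, ∑ e ∈ Icc 1 Q, 1 / (Nat.totient e : ℝ) ≤ (1 + Real.log Q) ^ k)
    (hC : ∀ y : ℕ, 2 ≤ y →
      |(((Icc 1 y).filter (fun p : ℕ => p.Prime)).card : ℝ) - lis y| ≤
        C * y / Real.log y ^ (U + k + 2))
    (x : ℕ) (hx1 : x1 ≤ x) (hx2 : x2 ≤ x) (hx8 : 8 ≤ x)
    (hl : 300 + 2 * |C| * 2 ^ k ≤ Real.log x)
    (hl1 : Real.log x ^ B1 ≤ (x:ℝ) ^ (3 / 50 : ℝ))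
    (c : ℤ) (I0 I1 D : ℕ)
    (hc : ∀ i ∈ Ioc I0 I1, 1 ≤ c + (i : ℤ) ^ 2 ∧ c + (i : ℤ) ^ 2 ≤ x) (hI : I1 ^ 2 ≤ 2 * x)
    (hD : (D : ℝ) ≤ (x : ℝ) ^ (18 / 25 : ℝ)) :
    ∑ i ∈ Ioc I0 I1, ∑ d ∈ (Icc 1 D).filter (fun d => (c + (i : ℤ) ^ 2).toNat.Coprime d),
      |piAP x d (c + (i : ℤ) ^ 2).toNat - lis x / (Nat.totient d : ℝ)| ≤
      (x : ℝ) ^ (3 / 2 : ℝ) / Real.log x ^ U := by
  set S := Ioc I0 I1 with hSdef
  set a : ℕ → ℕ := fun i => (c + (i : ℤ) ^ 2).toNat with ha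
  obtain ⟨ℓ, hℓ⟩ : ∃ ℓ : ℝ, ℓ = Real.log x := ⟨_, rfl⟩
  have hCk : 0 ≤ 2 * |C| * 2 ^ k := by positivity
  rw [← hℓ] at hl hl1
  have hℓ1 : 1 ≤ ℓ := by linarith
  have hℓ0 : 0 < ℓ := by linarith
  have hxr : (8:ℝ) ≤ x := by exact_mod_cast hx8
  have hx0 : (0:ℝ) < x := by linarith
  obtain ⟨s, hs⟩ : ∃ s : ℝ, s = √(x:ℝ) := ⟨_, rfl⟩
  have hs0 : 0 < s := by rw [hs]; exact Real.sqrt_pos.mpr hx0
  have hss : s * s = x := by rw [hs]; exact Real.mul_self_sqrt hx0.le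
  have hs1 : 1 ≤ s := by
    by_contra h
    rw [not_le] at h
    nlinarith
  have hsx : s ≤ x := by nlinarith
  have hx32 : (x:ℝ) ^ (3 / 2 : ℝ) = s * x := by
    rw [show (3/2 : ℝ) = 1 / 2 + 1 by norm_num, Real.rpow_add hx0, Real.rpow_one, hs,
      Real.sqrt_eq_rpow]
  have hx1825 : (x:ℝ) ^ (18 / 25 : ℝ) ≤ x := by
    calc (x:ℝ) ^ (18 / 25 : ℝ) ≤ (x:ℝ) ^ (1:ℝ) :=
          Real.rpow_le_rpow_of_exponent_le (by linarith) (by norm_num)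
      _ = x := Real.rpow_one _
  have hDx : D ≤ x := by exact_mod_cast hD.trans hx1825
  have hI2 : 2 * I1 ≤ x := by
    by_contra h
    rw [not_le] at h
    nlinarith
  have hIr : (I1 : ℝ) ≤ 2 * s := by
    have h1 : (I1:ℝ) ^ 2 ≤ 2 * x := by exact_mod_cast hI
    have h0 : (0:ℝ) ≤ I1 := Nat.cast_nonneg _
    nlinarith
  have hJ : (S.card : ℝ) ≤ 2 * s := by
    refine le_trans ?_ hIr
    rw [hSdef, Nat.card_Ioc]
    exact_mod_cast Nat.sub_le _ _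
  have hJ0 : (0:ℝ) ≤ S.card := Nat.cast_nonneg _
  obtain ⟨W, hW⟩ : ∃ W : ℝ, W = s * x / ℓ ^ (U + 2) := ⟨_, rfl⟩
  have hW0 : 0 ≤ W := by rw [hW]; positivity
  -- part A
  have hpB0 : (0:ℝ) < ℓ ^ B0 := by positivity
  have hpB0' : (1:ℝ) ≤ ℓ ^ B0 := one_le_pow₀ hℓ1
  have hQ1 : 0 < s / ℓ ^ B0 := by positivity
  obtain ⟨Q0, hQ0⟩ : ∃ Q0 : ℕ, Q0 = ⌊s / ℓ ^ B0⌋₊ := ⟨_, rfl⟩
  have hQ0le : (Q0 : ℝ) ≤ s / ℓ ^ B0 := by rw [hQ0]; exact Nat.floor_le hQ1.le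
  have hQ : ∀ d : ℕ, Q0 < d → s / ℓ ^ B0 ≤ d := by
    intro d hd
    rw [hQ0] at hd
    exact (Nat.lt_of_floor_lt hd).le
  have cA1 : (Q0 : ℝ) ≤ x / Real.log x ^ B0 := by
    rw [← hℓ]
    refine hQ0le.trans ?_
    gcongr
  have cA2 : (Q0 : ℝ) ^ 2 ≤ x / Real.log x ^ B0 := by
    rw [← hℓ]
    have h1 : (Q0:ℝ) ^ 2 ≤ (s / ℓ ^ B0) ^ 2 := pow_le_pow_left₀ (Nat.cast_nonneg _) hQ0le 2
    refine h1.trans ?_
    have e : (s / ℓ ^ B0) ^ 2 = (x / ℓ ^ B0) / ℓ ^ B0 := by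
      rw [← hss]; field_simp
    rw [e]
    exact div_le_self (by positivity) hpB0'
  have hPA := partA hA x Q0 S a hx1 cA1 cA2
  rw [← hℓ] at hPA
  have hPA' : ∑ d ∈ Icc 1 Q0, ∑ i ∈ Sa S a d, EE x d (a i % d) ≤ 2 * W := by
    refine hPA.trans ?_
    have : (S.card : ℝ) * (x / ℓ ^ (U + 2)) ≤ 2 * s * (x / ℓ ^ (U + 2)) :=
      mul_le_mul_of_nonneg_right hJ (by positivity)
    refine this.trans (le_of_eq ?_)
    rw [hW]; ring
  -- part B1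
  obtain ⟨M, hM⟩ : ∃ M : ℕ, M = ⌈ℓ ^ m⌉₊ := ⟨_, rfl⟩
  have hpm : (1:ℝ) ≤ ℓ ^ m := one_le_pow₀ hℓ1
  have hM1 : ℓ ^ m ≤ M := by rw [hM]; exact Nat.le_ceil _
  have hM2 : (M:ℝ) ≤ 2 * ℓ ^ m := by
    have := (Nat.ceil_lt_add_one (by linarith : 0 ≤ ℓ ^ m)).le
    rw [← hM] at this
    linarith
  have hMpos : 1 ≤ M := by
    have : (1:ℝ) ≤ M := hpm.trans hM1
    exact_mod_cast this
  have hpB1 : (0:ℝ) < ℓ ^ B1 := by positivity
  have cB1 : (D : ℝ) ≤ x / Real.log x ^ B1 := by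
    rw [← hℓ, le_div_iff₀ hpB1]
    calc (D:ℝ) * ℓ ^ B1 ≤ (x:ℝ) ^ (18 / 25 : ℝ) * (x:ℝ) ^ (3 / 50 : ℝ) :=
          mul_le_mul hD hl1 hpB1.le (by positivity)
      _ = (x:ℝ) ^ (39 / 50 : ℝ) := by rw [← Real.rpow_add hx0]; norm_num
      _ ≤ (x:ℝ) ^ (1:ℝ) := Real.rpow_le_rpow_of_exponent_le (by linarith) (by norm_num)
      _ = x := Real.rpow_one _
  have cB2 : (D : ℝ) ^ 2 ≤ (2 * s) * x / Real.log x ^ B1 := by
    rw [← hℓ, le_div_iff₀ hpB1]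
    calc (D:ℝ) ^ 2 * ℓ ^ B1 ≤ ((x:ℝ) ^ (18 / 25 : ℝ)) ^ 2 * (x:ℝ) ^ (3 / 50 : ℝ) :=
          mul_le_mul (pow_le_pow_left₀ (Nat.cast_nonneg _) hD 2) hl1 hpB1.le (by positivity)
      _ = (x:ℝ) ^ (3 / 2 : ℝ) := by
          rw [← Real.rpow_natCast, ← Real.rpow_mul hx0.le, ← Real.rpow_add hx0]; norm_num
      _ = s * x := hx32
      _ ≤ 2 * s * x := by nlinarith [mul_pos hs0 hx0]
  have hPB1 := partB1 hB x D M (2 * s) S a hx2 (by linarith) hJ cB1 cB2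
  rw [← hℓ] at hPB1
  have hPB1' : ∑ d ∈ Icc 1 D, ∑ i ∈ (Sa S a d).filter (fun i => mult S a d i ≤ M),
      EE x d (a i % d) ≤ 4 * W := by
    refine hPB1.trans ?_
    have e : 2 * s * x / ℓ ^ (U + m + 2) = 2 * W / ℓ ^ m := by
      rw [hW]
      have : ℓ ^ (U + m + 2) = ℓ ^ (U + 2) * ℓ ^ m := by rw [← pow_add]; congr 1; ring
      rw [this]
      field_simp
    rw [e]
    calc (M:ℝ) * (2 * W / ℓ ^ m) ≤ (2 * ℓ ^ m) * (2 * W / ℓ ^ m) :=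
          mul_le_mul_of_nonneg_right hM2 (by positivity)
      _ = 4 * W := by field_simp; ring
  -- part B2
  have hSI : ∀ i ∈ S, 1 ≤ i ∧ i ≤ I1 := by
    intro i hi
    rw [hSdef, mem_Ioc] at hi
    omega
  have hPB2 := partB2 S c I1 x Q0 D M (s / ℓ ^ B0) hSI hI2 hDx hQ1 hQ hMpos
    (by rw [← hℓ]; exact hℓ0.le) (fun i hi => (hc i hi).1)
  rw [← hℓ] at hPB2
  have hPB2' : ∑ d ∈ Ioc Q0 D, ∑ i ∈ (Sa S a d).filter (fun i => ¬ mult S a d i ≤ M),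
      EE x d (a i % d) ≤ 272 * W := by
    refine hPB2.trans ?_
    have h1 : ((2 * I1 : ℕ) * (1 + ℓ)) ^ 2 / (s / ℓ ^ B0) ≤ 32 * s * ℓ ^ (B0 + 2) := by
      rw [div_le_iff₀ hQ1]
      have e1 : 32 * s * ℓ ^ (B0 + 2) * (s / ℓ ^ B0) = 32 * x * ℓ ^ 2 := by
        rw [← hss, pow_add]; field_simp
      rw [e1]
      have h2 : (((2 * I1 : ℕ) : ℝ)) ^ 2 ≤ 8 * x := by
        have h1 : (I1:ℝ) ^ 2 ≤ 2 * x := by exact_mod_cast hI
        push_cast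
        nlinarith
      have h3 : (1 + ℓ) ^ 2 ≤ 4 * ℓ ^ 2 := by nlinarith
      rw [mul_pow]
      calc (((2 * I1 : ℕ) : ℝ)) ^ 2 * (1 + ℓ) ^ 2 ≤ (8 * x) * (4 * ℓ ^ 2) :=
            mul_le_mul h2 h3 (by positivity) (by positivity)
        _ = 32 * x * ℓ ^ 2 := by ring
    have h2 : (S.card : ℝ) * (1 + ℓ) ≤ 4 * s * ℓ ^ (B0 + 2) := by
      have h3 : (1 + ℓ) ≤ 2 * ℓ := by linarith
      have h4 : ℓ ≤ ℓ ^ (B0 + 2) := by
        calc ℓ = ℓ ^ 1 := (pow_one _).symm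
          _ ≤ ℓ ^ (B0 + 2) := pow_le_pow_right₀ hℓ1 (by omega)
      calc (S.card : ℝ) * (1 + ℓ) ≤ (2 * s) * (2 * ℓ) :=
            mul_le_mul hJ h3 (by linarith) (by positivity)
        _ = 4 * s * ℓ := by ring
        _ ≤ 4 * s * ℓ ^ (B0 + 2) := mul_le_mul_of_nonneg_left h4 (by positivity)
    have h3 : 2 * (x:ℝ) * (2 + ℓ) / M ≤ 4 * x * ℓ / ℓ ^ m := by
      apply div_le_div₀ (by positivity) _ (by positivity) hM1
      nlinarith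
    calc 2 * (x:ℝ) * (2 + ℓ) / M *
        ((S.card : ℝ) * (1 + ℓ) + 2 * (((2 * I1 : ℕ) * (1 + ℓ)) ^ 2 / (s / ℓ ^ B0))) ≤
        (4 * x * ℓ / ℓ ^ m) * (4 * s * ℓ ^ (B0 + 2) + 2 * (32 * s * ℓ ^ (B0 + 2))) := by
          apply mul_le_mul h3 _ (by positivity) (by positivity)
          linarith
      _ = 272 * W := by
          rw [hW, hm, pow_add ℓ (B0 + 3) (U + 2), pow_add ℓ B0 3, pow_add ℓ B0 2]
          field_simp
          ring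
  -- the prime number theorem
  obtain ⟨δ, hδ⟩ : ∃ δ : ℝ, δ = |H343E.pi1 x - lis x| := ⟨_, rfl⟩
  have hδ0 : 0 ≤ δ := by rw [hδ]; exact abs_nonneg _
  have hδ1 : δ ≤ |C| * x / ℓ ^ (U + k + 2) := by
    have := hC x (by omega)
    rw [← hℓ] at this
    rw [hδ]
    refine le_trans this ?_
    gcongr
    exact le_abs_self C
  have hpt : ∀ r d : ℕ, |piAP x d r - lis x / (Nat.totient d : ℝ)| ≤
      EE x d (r % d) + δ * (1 / (Nat.totient d : ℝ)) := by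
    intro r d
    rw [piAP_mod, EE, hδ, mul_one_div]
    have e : H343E.piAP x d (r % d) - lis x / (Nat.totient d : ℝ) =
        (H343E.piAP x d (r % d) - H343E.pi1 x / (Nat.totient d : ℝ)) +
        (H343E.pi1 x - lis x) / (Nat.totient d : ℝ) := by ring
    rw [e]
    refine (abs_add_le _ _).trans ?_
    rw [abs_div, Nat.abs_cast]
  have hswap : ∑ i ∈ S, ∑ d ∈ (Icc 1 D).filter (fun d => (a i).Coprime d),
      |piAP x d (a i) - lis x / (Nat.totient d : ℝ)| =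
      ∑ d ∈ Icc 1 D, ∑ i ∈ Sa S a d, |piAP x d (a i) - lis x / (Nat.totient d : ℝ)| := by
    simp only [Sa, sum_filter]
    rw [sum_comm]
  have h1 : ∑ d ∈ Icc 1 D, ∑ i ∈ Sa S a d, |piAP x d (a i) - lis x / (Nat.totient d : ℝ)| ≤
      ∑ d ∈ Icc 1 D, (∑ i ∈ Sa S a d, EE x d (a i % d) +
        2 * s * δ * (1 / (Nat.totient d : ℝ))) := by
    apply sum_le_sum
    intro d _
    refine (sum_le_sum fun i _ => hpt (a i) d).trans ?_
    rw [sum_add_distrib, sum_const, nsmul_eq_mul, mul_assoc]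
    have h3 : ((Sa S a d).card : ℝ) ≤ 2 * s := by
      refine le_trans ?_ hJ
      exact_mod_cast card_filter_le _ _
    have h4 : 0 ≤ δ * (1 / (Nat.totient d : ℝ)) := by positivity
    have := mul_le_mul_of_nonneg_right h3 h4
    linarith
  rw [sum_add_distrib, ← mul_sum] at h1
  have hnn : ∀ d, 0 ≤ ∑ i ∈ Sa S a d, EE x d (a i % d) :=
    fun d => sum_nonneg fun i _ => EE_nonneg _ _ _
  have h3 : ∑ d ∈ Icc 1 D, ∑ i ∈ Sa S a d, EE x d (a i % d) ≤ 278 * W := by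
    have h4 : ∑ d ∈ Icc 1 D, ∑ i ∈ Sa S a d, EE x d (a i % d) ≤
        ∑ d ∈ Icc 1 Q0, ∑ i ∈ Sa S a d, EE x d (a i % d) +
        ∑ d ∈ Ioc Q0 D, ∑ i ∈ Sa S a d, EE x d (a i % d) := by
      rw [← sum_union]
      · apply sum_le_sum_of_subset_of_nonneg
        · intro d hd
          simp only [mem_union, mem_Icc, mem_Ioc] at hd ⊢
          omega
        · intro d _ _; exact hnn d
      · rw [disjoint_left]
        intro d hd hd'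
        simp only [mem_Icc, mem_Ioc] at hd hd'
        omega
    have h5 : ∑ d ∈ Ioc Q0 D, ∑ i ∈ Sa S a d, EE x d (a i % d) =
        ∑ d ∈ Ioc Q0 D, ∑ i ∈ (Sa S a d).filter (fun i => mult S a d i ≤ M),
          EE x d (a i % d) +
        ∑ d ∈ Ioc Q0 D, ∑ i ∈ (Sa S a d).filter (fun i => ¬ mult S a d i ≤ M),
          EE x d (a i % d) := by
      rw [← sum_add_distrib]
      apply sum_congr rfl
      intro d _
      rw [sum_filter_add_sum_filter_not]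
    have h6 : ∑ d ∈ Ioc Q0 D, ∑ i ∈ (Sa S a d).filter (fun i => mult S a d i ≤ M),
          EE x d (a i % d) ≤ 4 * W := by
      refine le_trans ?_ hPB1'
      apply sum_le_sum_of_subset_of_nonneg
      · intro d hd
        simp only [mem_Icc, mem_Ioc] at hd ⊢
        omega
      · intro d _ _
        exact sum_nonneg fun i _ => EE_nonneg _ _ _
    linarith
  have h4 : ∑ e ∈ Icc 1 D, 1 / (Nat.totient e : ℝ) ≤ (2 * ℓ) ^ k := by
    rcases Nat.eq_zero_or_pos D with hD0 | hD0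
    · rw [hD0]; simp; positivity
    refine (hk D).trans ?_
    have hlD : Real.log D ≤ ℓ := by
      rw [hℓ]; exact Real.log_le_log (by exact_mod_cast hD0) (by exact_mod_cast hDx)
    have hlD0 : 0 ≤ Real.log D := Real.log_nonneg (by exact_mod_cast hD0)
    exact pow_le_pow_left₀ (by linarith) (by linarith) k
  have h5 : 2 * s * δ * ∑ e ∈ Icc 1 D, 1 / (Nat.totient e : ℝ) ≤ (2 * |C| * 2 ^ k) * W := by
    calc 2 * s * δ * ∑ e ∈ Icc 1 D, 1 / (Nat.totient e : ℝ) ≤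
        2 * s * (|C| * x / ℓ ^ (U + k + 2)) * (2 * ℓ) ^ k := by gcongr
      _ = (2 * |C| * 2 ^ k) * W := by
        rw [hW, mul_pow]
        have : ℓ ^ (U + k + 2) = ℓ ^ (U + 2) * ℓ ^ k := by rw [← pow_add]; congr 1; ring
        rw [this]
        field_simp
  have hfin : (278 + 2 * |C| * 2 ^ k) * W ≤ s * x / ℓ ^ U := by
    have e : s * x / ℓ ^ U = ℓ ^ 2 * W := by
      rw [hW, pow_add]; field_simp
    rw [e]
    apply mul_le_mul_of_nonneg_right _ hW0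
    nlinarith
  rw [hx32, ← hℓ]
  refine le_trans (le_of_eq hswap) ?_
  linarith

theorem t : Pool.Agent.Y856.Sq.S_low := by
  intro U
  obtain ⟨k0, hk0⟩ := Pool.Agent.H398R2.BV.sum_pow_omega_div_totient 1 le_rfl
  obtain ⟨B0, x1, hA⟩ := H343E.primes_of (U + 2) (H343E.unsmoothed (U + 2 + 2))
  obtain ⟨B1, x2, hB⟩ := H343E.primes_of (U + (B0 + 3 + (U + 2)) + 2)
    (H343E.unsmoothed (U + (B0 + 3 + (U + 2)) + 2 + 2))
  obtain ⟨C, hC⟩ := pnt_err (U + 2 ^ k0 + 2)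
  have hev := (evt_log_ge (300 + 2 * |C| * 2 ^ (2 ^ k0))).and
    (evt_log_pow B1 (3 / 50) (by norm_num))
  obtain ⟨x3, hx3⟩ := eventually_atTop.mp hev
  refine ⟨max (max x1 x2) (max x3 8), ?_⟩
  intro x hx c I0 I1 D hc hI hD
  simp only [max_le_iff] at hx
  obtain ⟨⟨g1, g2⟩, g3, g8⟩ := hx
  obtain ⟨g4, g5⟩ := hx3 x g3
  exact low_core U (2 ^ k0) B0 x1 B1 x2 _ C rfl hA hB (fun Q => by simpa using hk0 Q) hC
    x g1 g2 g8 g4 g5 c I0 I1 D hc hI hD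

end Pool.Agent.Y870.SQ
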