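import Pool.Agent.Y856.Sq.Stm
import Pool.Agent.H442R2.EHI.Lower
import Pool.Agent.H442R2.EHI.Model
import Pool.Agent.W93.LV2

/-!
SQ8: moduli up to `x ^ (18/25)`, residues `c + i ^ 2`, from the family theorem.
-/

namespace Pool.Agent.Y870.SQ

open Finset
open Pool.Agent.H442R2.EHI Pool.Agent.H442R2.EHI.LowerAux

/-- the indices with residue coprime to `d` -/
def Sa (S : Finset ℕ) (a : ℕ → ℕ) (d : ℕ) : Finset ℕ := S.filter (fun i => (a i).Coprime d)

/-- the number of indices with the same residue class mod `d` -/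
def mult (S : Finset ℕ) (a : ℕ → ℕ) (d i : ℕ) : ℕ := (S.filter (fun j => a j % d = a i % d)).card

lemma partA {U B x0 : ℕ} (h2 : Part2 U B x0) (x Q : ℕ) (S : Finset ℕ) (a : ℕ → ℕ) (hx : x0 ≤ x)
    (hD1 : (Q : ℝ) ≤ x / Real.log x ^ B) (hD2 : (Q : ℝ) ^ 2 ≤ x / Real.log x ^ B) :
    ∑ d ∈ Icc 1 Q, ∑ i ∈ Sa S a d, EE x d (a i % d) ≤ S.card * (x / Real.log x ^ U) := by
  have hex : ∀ d : ℕ, ∃ R : Finset ℕ, R.card ≤ 1 ∧ (∀ r ∈ R, r < d ∧ r.Coprime d) ∧
      ∀ r ∈ Rd d, EE x d r ≤ ∑ r ∈ R, EE x d r := by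
    intro d
    rcases (Rd d).eq_empty_or_nonempty with h | h
    · refine ⟨∅, by simp, by simp, ?_⟩
      rw [h]; simp
    · obtain ⟨r, hr, hm⟩ := exists_max_image (Rd d) (fun r => EE x d r) h
      refine ⟨{r}, by simp, ?_, ?_⟩
      · intro s hs
        rw [mem_singleton] at hs
        subst hs
        simp only [Rd, mem_filter, mem_range] at hr
        exact hr
      · intro s hs
        rw [sum_singleton]
        exact hm s hs
  choose R hR1 hR2 hR3 using hex
  have hF : H343E.Fam (1 : ℝ) R := by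
    constructor
    · intro q r hr
      exact hR2 q r hr
    · intro q
      exact_mod_cast hR1 q
  have h := h2 x hx 1 le_rfl Q hD1 (by rw [one_mul]; exact hD2) R hF
  rw [one_mul] at h
  have hterm : ∀ d ∈ Icc 1 Q, ∑ i ∈ Sa S a d, EE x d (a i % d) ≤
      S.card * ∑ r ∈ R d, EE x d r := by
    intro d hd
    rw [mem_Icc] at hd
    have h3 : ∀ i ∈ Sa S a d, EE x d (a i % d) ≤ ∑ r ∈ R d, EE x d r := by
      intro i hi
      apply hR3
      simp only [Sa, mem_filter] at hi
      simp only [Rd, mem_filter, mem_range]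
      exact ⟨Nat.mod_lt _ (by omega), cop_mod hi.2⟩
    refine (sum_le_sum h3).trans ?_
    rw [sum_const, nsmul_eq_mul]
    apply mul_le_mul_of_nonneg_right _ (sum_nonneg fun r _ => EE_nonneg _ _ _)
    exact_mod_cast card_filter_le _ _
  refine (sum_le_sum hterm).trans ?_
  rw [← mul_sum]
  exact mul_le_mul_of_nonneg_left h (Nat.cast_nonneg _)

lemma partB1 {U B x0 : ℕ} (h2 : Part2 U B x0) (x D M : ℕ) (A : ℝ) (S : Finset ℕ) (a : ℕ → ℕ)
    (hx : x0 ≤ x) (hA : 1 ≤ A) (hS : (S.card : ℝ) ≤ A)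
    (hD1 : (D : ℝ) ≤ x / Real.log x ^ B) (hD2 : (D : ℝ) ^ 2 ≤ A * x / Real.log x ^ B) :
    ∑ d ∈ Icc 1 D, ∑ i ∈ (Sa S a d).filter (fun i => mult S a d i ≤ M), EE x d (a i % d) ≤
      M * (A * x / Real.log x ^ U) := by
  set L : ℕ → Finset ℕ := fun d => if 1 ≤ d then (Sa S a d).image (fun i => a i % d) else ∅ with hL
  have hF : H343E.Fam A L := by
    constructor
    · intro q r hr
      rw [hL] at hr
      beta_reduce at hr
      split_ifs at hr with h
      · rw [mem_image] at hr
        obtain ⟨b, hb, rfl⟩ := hr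
        simp only [Sa, mem_filter] at hb
        exact ⟨Nat.mod_lt _ (by omega), cop_mod hb.2⟩
      · simp at hr
    · intro q
      refine le_trans ?_ hS
      rw [hL]
      beta_reduce
      split_ifs with h
      · exact_mod_cast card_image_le.trans (card_filter_le _ _)
      · simp
  have h := h2 x hx A hA D hD1 hD2 L hF
  have hterm : ∀ d ∈ Icc 1 D,
      ∑ i ∈ (Sa S a d).filter (fun i => mult S a d i ≤ M), EE x d (a i % d) ≤
      M * ∑ r ∈ L d, EE x d r := by
    intro d hd
    rw [mem_Icc] at hd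
    have hLd : L d = (Sa S a d).image (fun i => a i % d) := by
      rw [hL]; beta_reduce; rw [if_pos hd.1]
    have hm : ∀ i ∈ (Sa S a d).filter (fun i => mult S a d i ≤ M), a i % d ∈ L d := by
      intro i hi
      rw [hLd]
      exact mem_image_of_mem _ (mem_filter.mp hi).1
    rw [← sum_fiberwise_of_maps_to hm, mul_sum]
    apply sum_le_sum
    intro r _
    have h1 : ∀ i ∈ ((Sa S a d).filter (fun i => mult S a d i ≤ M)).filter
        (fun i => a i % d = r), EE x d (a i % d) = EE x d r := by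
      intro i hi
      rw [(mem_filter.mp hi).2]
    rw [sum_congr rfl h1, sum_const, nsmul_eq_mul]
    apply mul_le_mul_of_nonneg_right _ (EE_nonneg _ _ _)
    rcases (((Sa S a d).filter (fun i => mult S a d i ≤ M)).filter
        (fun i => a i % d = r)).eq_empty_or_nonempty with h0 | ⟨i, hi⟩
    · rw [h0]; simp
    · have hi' := mem_filter.mp hi
      have hi'' := mem_filter.mp hi'.1
      have h3 : (((Sa S a d).filter (fun i => mult S a d i ≤ M)).filter
        (fun i => a i % d = r)).card ≤ mult S a d i := by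
        apply card_le_card
        intro j hj
        simp only [mem_filter, Sa] at hj ⊢
        exact ⟨hj.1.1.1, by rw [hj.2, hi'.2]⟩
      exact_mod_cast h3.trans hi''.2
  refine (sum_le_sum hterm).trans ?_
  rw [← mul_sum]
  exact mul_le_mul_of_nonneg_left h (Nat.cast_nonneg _)

/-- the trivial bound -/
lemma EE_triv (x d r : ℕ) (hd : 1 ≤ d) (hdx : d ≤ x) :
    EE x d r ≤ 2 * x * (2 + Real.log x) / d := by
  have hd0 : (0:ℝ) < d := by exact_mod_cast hd
  have h1 : H343E.piAP x d r ≤ 2 * x / d := by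
    have := count_class 0 x d r hd hdx
    refine le_trans ?_ this
    unfold H343E.piAP
    have hsub : (Icc 1 x).filter (fun p => p.Prime ∧ p ≡ r [MOD d]) ⊆
        (Ioc 0 (0 + x)).filter (fun a => a % d = r % d) := by
      intro p hp
      rw [mem_filter, mem_Icc] at hp
      rw [mem_filter, mem_Ioc]
      exact ⟨⟨by omega, by omega⟩, hp.2.2⟩
    exact_mod_cast card_le_card hsub
  have h2 : H343E.pi1 x ≤ x := by
    unfold H343E.pi1
    have : ((Icc 1 x).filter (fun p => p.Prime)).card ≤ x := by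
      refine (card_filter_le _ _).trans ?_
      simp
    exact_mod_cast this
  have h3 : (0:ℝ) < Nat.totient d := by exact_mod_cast Nat.totient_pos.mpr hd
  have h4 := Mdl.tot_lower d hd
  have h5 : Real.log d ≤ Real.log x := Real.log_le_log hd0 (by exact_mod_cast hdx)
  have h6 : H343E.pi1 x / (Nat.totient d : ℝ) ≤ 2 * x * (1 + Real.log x) / d := by
    rw [div_le_div_iff₀ h3 hd0]
    have hx0 : (0:ℝ) ≤ x := Nat.cast_nonneg _
    calc H343E.pi1 x * d ≤ x * (2 * (1 + Real.log d) * (Nat.totient d : ℝ)) := by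
          apply mul_le_mul h2 h4 hd0.le hx0
      _ ≤ x * (2 * (1 + Real.log x) * (Nat.totient d : ℝ)) := by gcongr
      _ = 2 * x * (1 + Real.log x) * (Nat.totient d : ℝ) := by ring
  have h7 : 0 ≤ H343E.piAP x d r := by unfold H343E.piAP; positivity
  have h8 : 0 ≤ H343E.pi1 x / (Nat.totient d : ℝ) := by unfold H343E.pi1; positivity
  unfold EE
  have h9 : |H343E.piAP x d r - H343E.pi1 x / (Nat.totient d : ℝ)| ≤
      H343E.piAP x d r + H343E.pi1 x / (Nat.totient d : ℝ) := by
    rw [abs_le]; constructor <;> linarith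
  refine h9.trans ?_
  have e : 2 * (x:ℝ) * (2 + Real.log x) / d = 2 * x / d + 2 * x * (1 + Real.log x) / d := by
    ring
  rw [e]
  linarith

end Pool.Agent.Y870.SQ
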