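import Pool.Agent.Y870.SQ.Low

/-!
SQ8, second part: classes with many indices.
-/

namespace Pool.Agent.Y870.SQ

open Finset
open Pool.Agent.H442R2.EHI Pool.Agent.H442R2.EHI.LowerAux

lemma dvd_of_mod {c : ℤ} {i j d : ℕ} (hi : 1 ≤ c + (i : ℤ) ^ 2) (hj : 1 ≤ c + (j : ℤ) ^ 2)
    (hji : j < i) (h : (c + (j : ℤ) ^ 2).toNat % d = (c + (i : ℤ) ^ 2).toNat % d) :
    d ∣ (i - j) * (i + j) := by
  have h1 : (c + (j : ℤ) ^ 2).toNat ≡ (c + (i : ℤ) ^ 2).toNat [MOD d] := h
  have h2 := Nat.modEq_iff_dvd.mp h1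
  rw [Int.toNat_of_nonneg (by omega), Int.toNat_of_nonneg (by omega)] at h2
  have h3 : ((((i - j) * (i + j) : ℕ)) : ℤ) = c + (i : ℤ) ^ 2 - (c + (j : ℤ) ^ 2) := by
    push_cast [Nat.cast_sub hji.le]
    ring
  rw [← h3] at h2
  exact_mod_cast h2

/-- sum over pairs of divisor functions -/
lemma pairs_tau (S : Finset ℕ) (I X : ℕ) (hS : ∀ i ∈ S, 1 ≤ i ∧ i ≤ I) (hI : 2 * I ≤ X) :
    ∑ i ∈ S, ∑ j ∈ S.filter (fun j => j < i), ((((i - j) * (i + j)).divisors.card : ℕ) : ℝ) ≤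
      ((2 * I : ℕ) * (1 + Real.log X)) ^ 2 := by
  have e1 : ∑ i ∈ S, ∑ j ∈ S.filter (fun j => j < i),
      ((((i - j) * (i + j)).divisors.card : ℕ) : ℝ) =
      ∑ z ∈ (S ×ˢ S).filter (fun z => z.2 < z.1),
        ((((z.1 - z.2) * (z.1 + z.2)).divisors.card : ℕ) : ℝ) := by
    rw [sum_filter, sum_product]
    apply sum_congr rfl
    intro i _
    rw [sum_filter]
  rw [e1]
  have e2 : ∑ z ∈ (S ×ˢ S).filter (fun z => z.2 < z.1),
        ((((z.1 - z.2) * (z.1 + z.2)).divisors.card : ℕ) : ℝ) ≤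
      ∑ z ∈ (S ×ˢ S).filter (fun z => z.2 < z.1),
        ((z.1 - z.2).divisors.card : ℝ) * ((z.1 + z.2).divisors.card : ℝ) := by
    apply sum_le_sum
    intro z _
    exact_mod_cast Pool.Agent.W93.LV.tau_mul _ _
  refine e2.trans ?_
  have e3 : ∑ z ∈ (S ×ˢ S).filter (fun z => z.2 < z.1),
        ((z.1 - z.2).divisors.card : ℝ) * ((z.1 + z.2).divisors.card : ℝ) =
      ∑ w ∈ ((S ×ˢ S).filter (fun z => z.2 < z.1)).image (fun z => (z.1 - z.2, z.1 + z.2)),
        (w.1.divisors.card : ℝ) * (w.2.divisors.card : ℝ) := by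
    rw [sum_image]
    intro z hz w hw hzw
    simp only [coe_filter, mem_product, Set.mem_ofPred_eq] at hz hw
    simp only [Prod.mk.injEq] at hzw
    ext <;> omega
  rw [e3]
  have e4 : ((S ×ˢ S).filter (fun z => z.2 < z.1)).image (fun z => (z.1 - z.2, z.1 + z.2)) ⊆
      (Icc 1 (2 * I)) ×ˢ (Icc 1 (2 * I)) := by
    intro w hw
    rw [mem_image] at hw
    obtain ⟨z, hz, rfl⟩ := hw
    rw [mem_filter, mem_product] at hz
    have h1 := hS _ hz.1.1
    have h2 := hS _ hz.1.2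
    simp only [mem_product, mem_Icc]
    omega
  refine (sum_le_sum_of_subset_of_nonneg e4 (fun w _ _ => by positivity)).trans ?_
  rw [sum_product]
  have e5 : ∑ u ∈ Icc 1 (2 * I), ∑ v ∈ Icc 1 (2 * I),
      (((u, v).1.divisors.card : ℕ) : ℝ) * (((u, v).2.divisors.card : ℕ) : ℝ) =
      (∑ u ∈ Icc 1 (2 * I), (u.divisors.card : ℝ)) ^ 2 := by
    rw [sq, sum_mul_sum]
  rw [e5]
  apply pow_le_pow_left₀ (sum_nonneg fun _ _ => Nat.cast_nonneg _)
  exact Pool.Agent.W93.LV.tau_sum X (2 * I) hI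

/-- pairs with the same residue -/
lemma sum_mult (S : Finset ℕ) (c : ℤ) (I X Q0 D : ℕ) (Q1 : ℝ)
    (hS : ∀ i ∈ S, 1 ≤ i ∧ i ≤ I) (hI : 2 * I ≤ X) (hD : D ≤ X) (hQ1 : 0 < Q1)
    (hQ : ∀ d : ℕ, Q0 < d → Q1 ≤ d)
    (hc : ∀ i ∈ S, 1 ≤ c + (i : ℤ) ^ 2) :
    ∑ d ∈ Ioc Q0 D, (1 / (d : ℝ)) *
      ∑ i ∈ S, (mult S (fun i => (c + (i : ℤ) ^ 2).toNat) d i : ℝ) ≤
      S.card * (1 + Real.log X) + 2 * (((2 * I : ℕ) * (1 + Real.log X)) ^ 2 / Q1) := by
  set a : ℕ → ℕ := fun i => (c + (i : ℤ) ^ 2).toNat with ha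
  have hdec : ∀ d : ℕ, ∑ i ∈ S, (mult S a d i : ℝ) ≤ S.card +
      2 * ∑ i ∈ S, ∑ j ∈ S.filter (fun j => j < i), (if a j % d = a i % d then (1:ℝ) else 0) := by
    intro d
    have h1 : ∀ i ∈ S, (mult S a d i : ℝ) ≤ 1 +
        (∑ j ∈ S.filter (fun j => j < i), (if a j % d = a i % d then (1:ℝ) else 0)) +
        ∑ j ∈ S.filter (fun j => i < j), (if a j % d = a i % d then (1:ℝ) else 0) := by
      intro i hi
      have h2 : (mult S a d i : ℝ) = ∑ j ∈ S, (if a j % d = a i % d then (1:ℝ) else 0) := by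
        unfold mult
        rw [sum_boole]
      rw [h2]
      have h3 : S = ({i} ∪ S.filter (fun j => j < i)) ∪ S.filter (fun j => i < j) := by
        ext j
        simp only [mem_union, mem_singleton, mem_filter]
        constructor
        · intro hj
          rcases lt_trichotomy j i with h | h | h
          · exact Or.inl (Or.inr ⟨hj, h⟩)
          · exact Or.inl (Or.inl h)
          · exact Or.inr ⟨hj, h⟩
        · rintro ((h | h) | h)
          · rw [h]; exact hi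
          · exact h.1
          · exact h.1
      conv_lhs => rw [h3]
      have hd1 : Disjoint ({i} ∪ S.filter (fun j => j < i)) (S.filter (fun j => i < j)) := by
        rw [disjoint_left]
        intro j hj hj'
        simp only [mem_union, mem_singleton, mem_filter] at hj hj'
        rcases hj with h | h
        · omega
        · omega
      have hd2 : Disjoint ({i} : Finset ℕ) (S.filter (fun j => j < i)) := by
        rw [disjoint_left]
        intro j hj hj'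
        simp only [mem_singleton, mem_filter] at hj hj'
        omega
      rw [sum_union hd1, sum_union hd2, sum_singleton]
      simp
    refine (sum_le_sum h1).trans (le_of_eq ?_)
    rw [sum_add_distrib, sum_add_distrib, sum_const, nsmul_eq_mul, mul_one]
    have h4 : ∑ i ∈ S, ∑ j ∈ S.filter (fun j => i < j), (if a j % d = a i % d then (1:ℝ) else 0) =
        ∑ i ∈ S, ∑ j ∈ S.filter (fun j => j < i), (if a j % d = a i % d then (1:ℝ) else 0) := by
      simp only [sum_filter]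
      rw [sum_comm]
      apply sum_congr rfl
      intro i _
      apply sum_congr rfl
      intro j _
      by_cases h : j < i
      · rw [if_pos h, if_pos h]
        simp only [eq_comm]
      · rw [if_neg h, if_neg h]
    rw [h4]
    ring
  have hstep : ∀ d ∈ Ioc Q0 D, (1 / (d : ℝ)) * ∑ i ∈ S, (mult S a d i : ℝ) ≤
      S.card * (1 / (d : ℝ)) + (2 / Q1) *
      ∑ i ∈ S, ∑ j ∈ S.filter (fun j => j < i), (if a j % d = a i % d then (1:ℝ) else 0) := by
    intro d hd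
    rw [mem_Ioc] at hd
    have hd0 : (0:ℝ) < d := by exact_mod_cast (by omega : 0 < d)
    have h1 : 1 / (d:ℝ) ≤ 1 / Q1 := one_div_le_one_div_of_le hQ1 (hQ d hd.1)
    have hnn : (0:ℝ) ≤ ∑ i ∈ S, ∑ j ∈ S.filter (fun j => j < i),
        (if a j % d = a i % d then (1:ℝ) else 0) := by
      apply sum_nonneg; intro i _; apply sum_nonneg; intro j _; split_ifs <;> norm_num
    calc (1 / (d : ℝ)) * ∑ i ∈ S, (mult S a d i : ℝ) ≤ (1 / (d:ℝ)) * (S.card +
        2 * ∑ i ∈ S, ∑ j ∈ S.filter (fun j => j < i),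
          (if a j % d = a i % d then (1:ℝ) else 0)) :=
          mul_le_mul_of_nonneg_left (hdec d) (by positivity)
      _ = S.card * (1 / (d : ℝ)) + 2 * ((1 / (d:ℝ)) * ∑ i ∈ S, ∑ j ∈ S.filter (fun j => j < i),
          (if a j % d = a i % d then (1:ℝ) else 0)) := by ring
      _ ≤ S.card * (1 / (d : ℝ)) + 2 * ((1 / Q1) * ∑ i ∈ S, ∑ j ∈ S.filter (fun j => j < i),
          (if a j % d = a i % d then (1:ℝ) else 0)) := by
          have := mul_le_mul_of_nonneg_right h1 hnn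
          linarith
      _ = _ := by ring
  refine (sum_le_sum hstep).trans ?_
  rw [sum_add_distrib, ← mul_sum, ← mul_sum]
  have h5 : ∑ d ∈ Ioc Q0 D, 1 / (d:ℝ) ≤ 1 + Real.log X := by
    refine le_trans ?_ (Pool.Agent.W93.LV.harm_le D X hD)
    apply sum_le_sum_of_subset_of_nonneg
    · intro d hd
      rw [mem_Ioc] at hd
      rw [mem_Icc]
      omega
    · intro d _ _; positivity
  have h6 : ∑ d ∈ Ioc Q0 D, ∑ i ∈ S, ∑ j ∈ S.filter (fun j => j < i),
      (if a j % d = a i % d then (1:ℝ) else 0) ≤ ((2 * I : ℕ) * (1 + Real.log X)) ^ 2 := by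
    refine le_trans ?_ (pairs_tau S I X hS hI)
    rw [sum_comm]
    apply sum_le_sum
    intro i hi
    rw [sum_comm]
    apply sum_le_sum
    intro j hj
    rw [mem_filter] at hj
    rw [sum_boole]
    have : ((Ioc Q0 D).filter (fun d => a j % d = a i % d)) ⊆
        ((i - j) * (i + j)).divisors := by
      intro d hd
      rw [mem_filter, mem_Ioc] at hd
      rw [Nat.mem_divisors]
      refine ⟨dvd_of_mod (hc i hi) (hc j hj.1) hj.2 hd.2, ?_⟩
      have h7 := hS i hi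
      have h8 := hj.2
      have h9 : 0 < i - j := by omega
      have h10 : 0 < i + j := by omega
      exact (Nat.mul_pos h9 h10).ne'
    exact_mod_cast card_le_card this
  have h7 : (2 / Q1) * ∑ d ∈ Ioc Q0 D, ∑ i ∈ S, ∑ j ∈ S.filter (fun j => j < i),
      (if a j % d = a i % d then (1:ℝ) else 0) ≤
      (2 / Q1) * ((2 * I : ℕ) * (1 + Real.log X)) ^ 2 :=
    mul_le_mul_of_nonneg_left h6 (by positivity)
  have h8 : (S.card : ℝ) * ∑ d ∈ Ioc Q0 D, 1 / (d:ℝ) ≤ S.card * (1 + Real.log X) :=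
    mul_le_mul_of_nonneg_left h5 (Nat.cast_nonneg _)
  have e : 2 * (((2 * I : ℕ) * (1 + Real.log X)) ^ 2 / Q1) =
      (2 / Q1) * ((2 * I : ℕ) * (1 + Real.log X)) ^ 2 := by ring
  rw [e]
  linarith

/-- classes with many indices -/
lemma partB2 (S : Finset ℕ) (c : ℤ) (I x Q0 D M : ℕ) (Q1 : ℝ)
    (hS : ∀ i ∈ S, 1 ≤ i ∧ i ≤ I) (hI : 2 * I ≤ x) (hD : D ≤ x) (hQ1 : 0 < Q1)
    (hQ : ∀ d : ℕ, Q0 < d → Q1 ≤ d) (hM : 1 ≤ M) (hl : 0 ≤ Real.log x)
    (hc : ∀ i ∈ S, 1 ≤ c + (i : ℤ) ^ 2) :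
    ∑ d ∈ Ioc Q0 D, ∑ i ∈ (Sa S (fun i => (c + (i : ℤ) ^ 2).toNat) d).filter
      (fun i => ¬ mult S (fun i => (c + (i : ℤ) ^ 2).toNat) d i ≤ M),
      EE x d ((c + (i : ℤ) ^ 2).toNat % d) ≤
      2 * x * (2 + Real.log x) / M *
        (S.card * (1 + Real.log x) + 2 * (((2 * I : ℕ) * (1 + Real.log x)) ^ 2 / Q1)) := by
  have hM0 : (0:ℝ) < M := by exact_mod_cast hM
  have hx0 : (0:ℝ) ≤ x := Nat.cast_nonneg _
  have hC : 0 ≤ 2 * (x:ℝ) * (2 + Real.log x) / M := by positivity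
  refine le_trans ?_ (mul_le_mul_of_nonneg_left (sum_mult S c I x Q0 D Q1 hS hI hD hQ1 hQ hc) hC)
  rw [mul_sum]
  apply sum_le_sum
  intro d hd
  rw [mem_Ioc] at hd
  have hd0 : (0:ℝ) < d := by exact_mod_cast (by omega : 0 < d)
  have h1 : ∀ i ∈ (Sa S (fun i => (c + (i : ℤ) ^ 2).toNat) d).filter
      (fun i => ¬ mult S (fun i => (c + (i : ℤ) ^ 2).toNat) d i ≤ M),
      EE x d ((c + (i : ℤ) ^ 2).toNat % d) ≤
      2 * x * (2 + Real.log x) / M * (1 / (d:ℝ)) *
        (mult S (fun i => (c + (i : ℤ) ^ 2).toNat) d i : ℝ) := by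
    intro i hi
    rw [mem_filter, not_le] at hi
    have h2 := EE_triv x d ((c + (i : ℤ) ^ 2).toNat % d) (by omega) (by omega)
    refine h2.trans ?_
    have h3 : (M:ℝ) ≤ (mult S (fun i => (c + (i : ℤ) ^ 2).toNat) d i : ℝ) := by
      exact_mod_cast hi.2.le
    have h4 : 2 * (x:ℝ) * (2 + Real.log x) / d =
        2 * x * (2 + Real.log x) / M * (1 / (d:ℝ)) * M := by
      field_simp
    rw [h4]
    exact mul_le_mul_of_nonneg_left h3 (by positivity)
  refine (sum_le_sum h1).trans ?_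
  rw [← mul_sum, ← mul_assoc]
  apply mul_le_mul_of_nonneg_left _ (by positivity)
  apply sum_le_sum_of_subset_of_nonneg
  · intro i hi
    exact (mem_filter.mp (mem_filter.mp hi).1).1
  · intro i _ _; exact Nat.cast_nonneg _

end Pool.Agent.Y870.SQ
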